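import Pool.Agent.Q225.LS.Defs
import Pool.Agent.Y638.RF.Lower
import Pool.Agent.Y350.DGF.Zero

set_option autoImplicit false

/-! # Few subfunctions -/

namespace Pool.Agent.Q225.LS

open Finset Matrix MvPolynomial

variable {ι : Type} {D : ι → Type} [DecidableEq ι] {S F : Type} [Fintype S] [DecidableEq S]
  [Field F] {Y : Type}

/-- the products of given matrices and arbitrary ones -/
def Fam : List (Y → Matrix S S F) → Set (Y → Matrix S S F)
  | [] => {g | ∃ B, g = fun _ => B}
  | A :: L => {g | ∃ g' ∈ Fam L, ∃ B, g = fun v => g' v * A v * B}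

theorem Fam.mul {L : List (Y → Matrix S S F)} {g : Y → Matrix S S F} (h : g ∈ Fam L)
    (B : Matrix S S F) : (fun v => g v * B) ∈ Fam L := by
  cases L with
  | nil =>
    obtain ⟨B', rfl⟩ := h
    exact ⟨B' * B, rfl⟩
  | cons A L =>
    obtain ⟨g', hg', B', rfl⟩ := h
    exact ⟨g', hg', B' * B, by simp only [Matrix.mul_assoc]⟩

/-- the matrices of the steps which read item `i`, as functions of `v` -/
def live (i : ι) (y : Y → D i) (z0 : ∀ i, D i) (l : List (Step ι D S F)) :
    List (Y → Matrix S S F) :=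
  (l.filter (fun s => s.1 = i)).map (fun s v => s.2 (Function.update z0 i (y v) s.1))

theorem run_mem (i : ι) (y : Y → D i) (z0 z : ∀ i, D i) : ∀ l : List (Step ι D S F),
    (fun v => run (Function.update z i (y v)) l) ∈ Fam (live i y z0 l)
  | [] => ⟨1, rfl⟩
  | s :: l => by
    have ih := run_mem i y z0 z l
    by_cases h : s.1 = i
    · have e : live i y z0 (s :: l) =
          (fun v => s.2 (Function.update z0 i (y v) s.1)) :: live i y z0 l := by
        unfold live
        rw [List.filter_cons_of_pos (by simpa using h)]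
        rfl
      rw [e]
      refine ⟨_, ih, 1, ?_⟩
      funext v
      have e2 : Function.update z i (y v) s.1 = Function.update z0 i (y v) s.1 := by
        obtain ⟨j, A⟩ := s
        simp only at h
        subst h
        simp only [Function.update_self]
      simp only [run, Matrix.mul_one, e2]
    · have e : live i y z0 (s :: l) = live i y z0 l := by
        unfold live
        rw [List.filter_cons_of_neg (by simpa using h)]
      rw [e]
      have h1 := Fam.mul ih (s.2 (z s.1))
      convert h1 using 1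
      funext v
      simp only [run]
      rw [Function.update_of_ne h]

/-- The entries are polynomials of few parameters. -/
theorem exists_poly : ∀ L : List (Y → Matrix S S F), ∃ (σ : Type) (_ : Fintype σ)
    (P : Y → S → S → MvPolynomial σ F), Fintype.card σ = (L.length + 1) * Fintype.card S ^ 2 ∧
      (∀ v a b, (P v a b).totalDegree ≤ L.length + 1) ∧
      ∀ g ∈ Fam L, ∃ θ : σ → F, ∀ v a b, g v a b = eval θ (P v a b)
  | [] => by
    refine ⟨S × S, inferInstance, fun _ a b => X (a, b), ?_, ?_, ?_⟩
    · rw [Fintype.card_prod]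
      simp only [List.length_nil]
      ring
    · intro v a b
      rw [totalDegree_X]
      simp
    · rintro g ⟨B, rfl⟩
      exact ⟨fun p => B p.1 p.2, fun v a b => by simp⟩
  | A :: L => by
    obtain ⟨σ, _, P, h1, h2, h3⟩ := exists_poly L
    refine ⟨σ ⊕ (S × S), inferInstance, fun v a b =>
      ∑ d, (∑ c, rename Sum.inl (P v a c) * C (A v c d)) * X (Sum.inr (d, b)), ?_, ?_, ?_⟩
    · rw [Fintype.card_sum, Fintype.card_prod, h1]
      simp only [List.length_cons]
      ring
    · intro v a b
      refine (totalDegree_finsetSum _ _).trans (Finset.sup_le fun d _ => ?_)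
      refine (totalDegree_mul _ _).trans ?_
      rw [totalDegree_X]
      simp only [List.length_cons]
      apply Nat.add_le_add_right
      refine (totalDegree_finsetSum _ _).trans (Finset.sup_le fun c _ => ?_)
      refine (totalDegree_mul _ _).trans ?_
      rw [totalDegree_C, add_zero]
      exact (totalDegree_rename_le _ _).trans (h2 v a c)
    · rintro g ⟨g', hg', B, rfl⟩
      obtain ⟨θ, hθ⟩ := h3 g' hg'
      refine ⟨Sum.elim θ (fun p => B p.1 p.2), fun v a b => ?_⟩
      simp only [Matrix.mul_apply, map_sum, map_mul, eval_X, eval_C, eval_rename, Sum.elim_inr,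
        Sum.elim_comp_inl, hθ]

/-- The values of the machine are polynomials of few parameters. -/
theorem Machine.exists_poly (i : ι) (y : Y → D i) (z0 : ∀ i, D i) (C : Machine ι D S F) :
    ∃ (σ : Type) (_ : Fintype σ) (P : Y → MvPolynomial σ F),
      Fintype.card σ = (C.reads {i} + 1) * Fintype.card S ^ 2 ∧
      (∀ v, (P v).totalDegree ≤ C.reads {i} + 1) ∧
      ∀ z, ∃ θ : σ → F, ∀ v, C.value (Function.update z i (y v)) = eval θ (P v) := by
  obtain ⟨σ, _, P, h1, h2, h3⟩ := LS.exists_poly (live i y z0 C.steps)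
  have hlen : (live i y z0 C.steps).length = C.reads {i} := by
    unfold live Machine.reads count
    rw [List.length_map]
    simp only [Finset.mem_singleton]
  rw [hlen] at h1 h2
  refine ⟨σ, inferInstance, fun v => ∑ a, ∑ b, MvPolynomial.C (C.final a * C.start b) * P v a b,
    h1, ?_, fun z => ?_⟩
  · intro v
    refine (totalDegree_finsetSum _ _).trans (Finset.sup_le fun a _ => ?_)
    refine (totalDegree_finsetSum _ _).trans (Finset.sup_le fun b _ => ?_)
    refine (totalDegree_mul _ _).trans ?_
    rw [totalDegree_C, zero_add]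
    exact h2 v a b
  · obtain ⟨θ, hθ⟩ := h3 _ (run_mem i y z0 z C.steps)
    refine ⟨θ, fun v => ?_⟩
    unfold Machine.value
    simp only [dotProduct, mulVec, map_sum, map_mul, eval_C, mul_sum]
    refine sum_congr rfl fun a _ => sum_congr rfl fun b _ => ?_
    rw [← hθ v a b]
    ring

theorem mono_bound {K r N M : ℕ} (hM : 4 * K * (r + 1) + 2 ≤ M) (x : ℕ)
    (hx : x ≤ (4 * K * (r + 1) + 2) ^ ((r + 1) * N ^ 2)) : x ≤ M ^ ((r + 1) * N ^ 2) :=
  hx.trans (Nat.pow_le_pow_left hM _)

open Classical in
/-- Few subfunctions: acceptance by nonzero values. -/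
theorem Machine.sub_nonzero [Fintype Y] (i : ι) (y : Y → D i) (M : ℕ) (C : Machine ι D S F)
    (hM : 4 * Fintype.card Y * (C.reads {i} + 1) + 2 ≤ M) :
    ∃ 𝒮 : Finset (Y → Bool), 𝒮.card ≤ M ^ ((C.reads {i} + 1) * Fintype.card S ^ 2) ∧
      ∀ z, (fun v => C.nonzero (Function.update z i (y v))) ∈ 𝒮 := by
  rcases isEmpty_or_nonempty (∀ i, D i) with hz | ⟨⟨z0⟩⟩
  · exact ⟨∅, by simp, fun z => (hz.false z).elim⟩
  obtain ⟨σ, _, P, h1, h2, h3⟩ := C.exists_poly i y z0
  have h4 := Pool.Agent.Y350.DGF.zero F Y σ P (C.reads {i} + 1) h2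
  rw [h1] at h4
  refine ⟨(Set.toFinite (Set.range fun θ : σ → F => {v : Y | eval θ (P v) ≠ 0})).toFinset.image
    (fun s => fun v => decide (v ∈ s)), ?_, fun z => ?_⟩
  · refine card_image_le.trans ?_
    rw [← Set.ncard_eq_toFinset_card]
    refine h4.trans (Nat.pow_le_pow_left ?_ _)
    refine le_trans ?_ hM
    nlinarith
  · obtain ⟨θ, hθ⟩ := h3 z
    rw [mem_image]
    refine ⟨{v : Y | eval θ (P v) ≠ 0}, ?_, ?_⟩
    · rw [Set.Finite.mem_toFinset]
      exact ⟨θ, rfl⟩
    · funext v
      unfold Machine.nonzero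
      rw [hθ v]
      exact decide_eq_decide.2 Iff.rfl

open Classical in
/-- Few subfunctions: acceptance by positive values. -/
theorem Machine.sub_positive [Fintype Y] (i : ι) (y : Y → D i) (M : ℕ) (C : Machine ι D S ℝ)
    (hM : 4 * Fintype.card Y * (C.reads {i} + 1) + 2 ≤ M) :
    ∃ 𝒮 : Finset (Y → Bool), 𝒮.card ≤ M ^ ((C.reads {i} + 1) * Fintype.card S ^ 2) ∧
      ∀ z, (fun v => C.positive (Function.update z i (y v))) ∈ 𝒮 := by
  rcases isEmpty_or_nonempty (∀ i, D i) with hz | ⟨⟨z0⟩⟩
  · exact ⟨∅, by simp, fun z => (hz.false z).elim⟩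
  obtain ⟨σ, _, P, h1, h2, h3⟩ := C.exists_poly i y z0
  have h4 := Pool.Agent.Helper448.Warren.ncard_sign_patterns_le P (C.reads {i} + 1) h2
  rw [h1] at h4
  refine ⟨(Set.toFinite (Set.range (fun θ : σ → ℝ => fun v : Y =>
    SignType.sign (eval θ (P v))))).toFinset.image (fun s => fun v => decide (s v = 1)),
    ?_, fun z => ?_⟩
  · refine card_image_le.trans ?_
    rw [← Set.ncard_eq_toFinset_card]
    exact h4.trans (Nat.pow_le_pow_left hM _)
  · obtain ⟨θ, hθ⟩ := h3 z
    rw [mem_image]
    refine ⟨fun v => SignType.sign (eval θ (P v)), ?_, ?_⟩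
    · rw [Set.Finite.mem_toFinset]
      exact ⟨θ, rfl⟩
    · funext v
      unfold Machine.positive
      rw [hθ v]
      simp only [sign_eq_one_iff]

end Pool.Agent.Q225.LS
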