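import Pool.Agent.Q225.LS.Lower
import Pool.Agent.Q225.SP.OuMv
import Pool.Agent.Q225.SP.MinPlus
import Pool.Agent.Q225.SP.ZeroSum
import Pool.Agent.Q225.SP.Tri
import Pool.Agent.Q225.SP.Dual
import Pool.Agent.Y638.RF.NetZT

set_option autoImplicit false

/-! # Closed forms -/

namespace Pool.Agent.Q225.LS

open Finset
open Pool.Agent.Y638.RF (Asks)
open Pool.Agent.TH697.Form (IsProb)
open Pool.Agent.TH697.Row (ApproximatesOn)
open Pool.Agent.Q225.SP (somes card_somes log_small lefts card_lefts)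

/-- the numbers fit -/
def Good (K L : ℕ) (A B : ℝ) : Prop :=
  ∃ (M : ℕ) (G : ℝ), 4 * K * (L + 1) + 2 ≤ M ∧ Real.logb 2 M ≤ G ∧ 0 < G ∧ B * G ≤ A

theorem close {A g G Q X B : ℝ} (h : A ≤ g * Q * X) (hQ : 0 ≤ Q) (hX : 0 ≤ X) (h1 : g ≤ G)
    (hG : 0 < G) (hB : B * G ≤ A) : B ≤ Q * X := by
  have h2 : g * Q * X ≤ G * (Q * X) := by
    rw [mul_assoc]
    exact mul_le_mul_of_nonneg_right h1 (mul_nonneg hQ hX)
  have h3 : G * B ≤ G * (Q * X) := by linarith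
  exact le_of_mul_le_mul_left h3 hG

variable {ι : Type} {D : ι → Type} [DecidableEq ι] {S F : Type} [Fintype S] [DecidableEq S]
  {T : Type} [Fintype T] {Ω : Type} [Fintype Ω]

theorem positive_bound {K L : ℕ} {B : ℝ} {I : Finset ι}
    (hg : Good K L (I.card * ((49 / 600) * Fintype.card T)) B)
    {P : (∀ i, D i) → Prop} {f : (∀ i, D i) → Bool} (h : ∀ i ∈ I, Asks T K 0 P f i)
    (μ : Ω → ℝ) (hμ : IsProb μ) (C : Ω → Machine ι D S ℝ) (hL : ∀ ω, (C ω).reads I ≤ L)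
    (hF : ApproximatesOn μ (fun ω => (C ω).positive) P f) :
    B ≤ (Fintype.card S : ℝ) ^ 2 * (mean μ (fun ω => (C ω).reads I) + I.card) := by
  obtain ⟨M, G, h1, h2, h3, h4⟩ := hg
  have h5 := positive_lower μ hμ C P f hF K L M I hL h1 0 h
  rw [sub_zero] at h5
  exact close h5 (by positivity) (add_nonneg (mean_nonneg μ hμ _) (Nat.cast_nonneg _)) h2 h3 h4

theorem nonzero_bound [Field F] {K L : ℕ} {B : ℝ} {I : Finset ι}
    (hg : Good K L (I.card * ((49 / 600) * Fintype.card T)) B)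
    {P : (∀ i, D i) → Prop} {f : (∀ i, D i) → Bool} (h : ∀ i ∈ I, Asks T K 0 P f i)
    (μ : Ω → ℝ) (hμ : IsProb μ) (C : Ω → Machine ι D S F) (hL : ∀ ω, (C ω).reads I ≤ L)
    (hF : ApproximatesOn μ (fun ω => (C ω).nonzero) P f) :
    B ≤ (Fintype.card S : ℝ) ^ 2 * (mean μ (fun ω => (C ω).reads I) + I.card) := by
  obtain ⟨M, G, h1, h2, h3, h4⟩ := hg
  have h5 := nonzero_lower μ hμ C P f hF K L M I hL h1 0 h
  rw [sub_zero] at h5
  exact close h5 (by positivity) (add_nonneg (mean_nonneg μ hμ _) (Nat.cast_nonneg _)) h2 h3 h4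

theorem quantum_bound {K L : ℕ} {B : ℝ} {I : Finset ι}
    (hg : Good K L (I.card * ((49 / 600) * Fintype.card T)) B)
    {P : (∀ i, D i) → Prop} {f : (∀ i, D i) → Bool} (h : ∀ i ∈ I, Asks T K 0 P f i)
    (μ : Ω → ℝ) (hμ : IsProb μ) (C : Ω → Quantum ι D S) (hL : ∀ ω, (C ω).reads I ≤ L)
    (hF : ApproximatesOn μ (fun ω => (C ω).eval) P f) :
    B ≤ 16 * (Fintype.card S : ℝ) ^ 4 * (mean μ (fun ω => (C ω).reads I) + I.card) := by
  obtain ⟨M, G, h1, h2, h3, h4⟩ := hg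
  have h5 := quantum_lower μ hμ C P f hF K L M I hL h1 0 h
  rw [sub_zero] at h5
  exact close h5 (by positivity) (add_nonneg (mean_nonneg μ hμ _) (Nat.cast_nonneg _)) h2 h3 h4

/-! ### The numbers for the problems -/

theorem asks_somes {n : ℕ} {D : Option (Fin n) → Type} {K : ℕ} {P : (∀ i, D i) → Prop}
    {f : (∀ i, D i) → Bool} (h : ∀ i : Fin n, Asks T K 0 P f (some i)) :
    ∀ i ∈ somes n, Asks T K 0 P f i := by
  intro x hx
  rw [somes, mem_map] at hx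
  obtain ⟨i, -, rfl⟩ := hx
  exact h i

theorem good_pairs {n a : ℕ} (hn : 256 ≤ n) (ha : 1 ≤ a) :
    Good (n ^ 2) (n ^ a) ((somes n).card * ((49 / 600) * Fintype.card (Fin n × Fin n)))
      ((n : ℝ) ^ 3 / (49 * a * Real.logb 2 n)) := by
  have hn' : (256 : ℝ) ≤ n := by exact_mod_cast hn
  have ha' : (1 : ℝ) ≤ a := by exact_mod_cast ha
  obtain ⟨hl1, hl2⟩ := log_small hn'
  obtain ⟨l, hl⟩ : ∃ l : ℝ, l = Real.logb 2 (n : ℝ) := ⟨_, rfl⟩
  rw [← hl] at hl1 hl2 ⊢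
  refine ⟨n ^ (a + 3), 4 * a * l, ?_, ?_, by positivity, ?_⟩
  · have h1 : 1 ≤ n ^ a := Nat.one_le_pow _ _ (by omega)
    have h2 : 4 * n ^ 2 * (n ^ a + 1) ≤ 4 * n ^ 2 * (2 * n ^ a) :=
      Nat.mul_le_mul_left _ (by omega)
    have h3 : 4 * n ^ 2 * (2 * n ^ a) = 8 * (n ^ 2 * n ^ a) := by ring
    have h4 : n ^ a ≤ n ^ 2 * n ^ a := Nat.le_mul_of_pos_left _ (by positivity)
    have h5 : n ^ (a + 3) = n * (n ^ 2 * n ^ a) := by ring
    have h6 : 256 * (n ^ 2 * n ^ a) ≤ n * (n ^ 2 * n ^ a) := Nat.mul_le_mul_right _ hn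
    rw [h5]
    omega
  · push_cast
    rw [Real.logb_pow, ← hl]
    push_cast
    nlinarith
  · rw [card_somes, Fintype.card_prod, Fintype.card_fin]
    push_cast
    have h1 : 0 < 49 * (a : ℝ) * l := by positivity
    rw [div_mul_eq_mul_div, div_le_iff₀ h1]
    have h2 : 0 ≤ (n : ℝ) ^ 3 * (a * l) := by positivity
    have e1 : (n : ℝ) ^ 3 * (4 * a * l) = 4 * ((n : ℝ) ^ 3 * (a * l)) := by ring
    have e2 : (n : ℝ) * (49 / 600 * (n * n)) * (49 * a * l) =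
        (49 * 49 / 600) * ((n : ℝ) ^ 3 * (a * l)) := by ring
    rw [e1, e2]
    linarith

theorem good_minPlus {n a b : ℕ} (hn : 64 ≤ n) (ha : 1 ≤ a) (hb : b = Nat.log 2 n) :
    2 ^ b ≤ n ∧ Good (n ^ 3) (n ^ a) ((somes n).card *
      ((49 / 600) * Fintype.card (Fin n × Fin n × Fin b))) ((n : ℝ) ^ 3 / (72 * a)) := by
  have hn' : (64 : ℝ) ≤ n := by exact_mod_cast hn
  have ha' : (1 : ℝ) ≤ a := by exact_mod_cast ha
  have hb6 : 6 ≤ b := by
    have := Nat.log_mono_right (b := 2) hn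
    rw [hb]
    rwa [show Nat.log 2 64 = 6 by decide +kernel] at this
  have hpow : 2 ^ b ≤ n := by
    rw [hb]
    exact Nat.pow_log_le_self 2 (by omega)
  have hpow2 : n < 2 ^ (b + 1) := by
    have := Nat.lt_pow_succ_log_self (b := 2) (by norm_num) n
    rw [hb]
    exact this
  obtain ⟨l, hl⟩ : ∃ l : ℝ, l = Real.logb 2 (n : ℝ) := ⟨_, rfl⟩
  have hb' : (6 : ℝ) ≤ b := by exact_mod_cast hb6
  have hl1 : l ≤ 7 / 6 * b := by
    rw [hl]
    have h1 : (n : ℝ) ≤ (2 : ℝ) ^ (b + 1) := by exact_mod_cast hpow2.le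
    have h2 := Real.logb_le_logb_of_le (by norm_num : (1 : ℝ) < 2) (by linarith) h1
    rw [Real.logb_pow, Real.logb_self_eq_one (by norm_num), mul_one] at h2
    push_cast at h2
    linarith
  refine ⟨hpow, n ^ (a + 4), 35 / 6 * a * b, ?_, ?_, by positivity, ?_⟩
  · have h1 : 1 ≤ n ^ a := Nat.one_le_pow _ _ (by omega)
    have h2 : 4 * n ^ 3 * (n ^ a + 1) ≤ 4 * n ^ 3 * (2 * n ^ a) :=
      Nat.mul_le_mul_left _ (by omega)
    have h3 : 4 * n ^ 3 * (2 * n ^ a) = 8 * (n ^ 3 * n ^ a) := by ring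
    have h4 : n ^ a ≤ n ^ 3 * n ^ a := Nat.le_mul_of_pos_left _ (by positivity)
    have h5 : n ^ (a + 4) = n * (n ^ 3 * n ^ a) := by ring
    have h6 : 64 * (n ^ 3 * n ^ a) ≤ n * (n ^ 3 * n ^ a) := Nat.mul_le_mul_right _ hn
    rw [h5]
    omega
  · push_cast
    rw [Real.logb_pow, ← hl]
    push_cast
    have h1 : ((a : ℝ) + 4) * l ≤ (5 * a) * (7 / 6 * b) := by
      apply mul_le_mul (by linarith) hl1 _ (by linarith)
      rw [hl]
      exact Real.logb_nonneg (by norm_num) (by linarith)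
    linarith
  · rw [card_somes, Fintype.card_prod, Fintype.card_prod, Fintype.card_fin, Fintype.card_fin]
    push_cast
    have h1 : 0 < 72 * (a : ℝ) := by positivity
    rw [div_mul_eq_mul_div, div_le_iff₀ h1]
    have h2 : 0 ≤ (n : ℝ) ^ 3 * (a * b) := by positivity
    have e1 : (n : ℝ) ^ 3 * (35 / 6 * a * b) = 35 / 6 * ((n : ℝ) ^ 3 * (a * b)) := by ring
    have e2 : (n : ℝ) * (49 / 600 * (n * (n * b))) * (72 * a) =
        (49 * 72 / 600) * ((n : ℝ) ^ 3 * (a * b)) := by ring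
    rw [e1, e2]
    linarith

theorem good_zeroSum {n a b : ℕ} (hn : 1000 ≤ n) (ha : 1 ≤ a)
    (hg8 : 8 ≤ Nat.log 2 n) (hT : (n : ℝ) * (Nat.log 2 n : ℕ) / 7 ≤
      Fintype.card (Fin (n / 2) × Fin b)) :
    Good (n ^ 2) (n ^ a) ((somes n).card *
      ((49 / 600) * Fintype.card (Fin (n / 2) × Fin b))) ((n : ℝ) ^ 2 / (386 * a)) := by
  have hn' : (1000 : ℝ) ≤ n := by exact_mod_cast hn
  have ha' : (1 : ℝ) ≤ a := by exact_mod_cast ha
  have hlogn := Pool.Agent.TH457.Ary.ThreeSum.logb_n (n := n) (by omega)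
  have hg8' : (8 : ℝ) ≤ Nat.log 2 n := by exact_mod_cast hg8
  obtain ⟨g, hg⟩ : ∃ g : ℝ, g = Nat.log 2 n := ⟨_, rfl⟩
  rw [← hg] at hg8' hlogn hT
  refine ⟨n ^ (a + 3), 9 / 2 * a * g, ?_, ?_, by positivity, ?_⟩
  · have h1 : 1 ≤ n ^ a := Nat.one_le_pow _ _ (by omega)
    have h2 : 4 * n ^ 2 * (n ^ a + 1) ≤ 4 * n ^ 2 * (2 * n ^ a) :=
      Nat.mul_le_mul_left _ (by omega)
    have h3 : 4 * n ^ 2 * (2 * n ^ a) = 8 * (n ^ 2 * n ^ a) := by ring
    have h4 : n ^ a ≤ n ^ 2 * n ^ a := Nat.le_mul_of_pos_left _ (by positivity)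
    have h5 : n ^ (a + 3) = n * (n ^ 2 * n ^ a) := by ring
    have h6 : 256 * (n ^ 2 * n ^ a) ≤ n * (n ^ 2 * n ^ a) := Nat.mul_le_mul_right _ (by omega)
    rw [h5]
    omega
  · push_cast
    rw [Real.logb_pow]
    push_cast
    have h0 : Real.logb 2 (n : ℝ) ≤ 9 / 8 * g := by linarith
    have h1 : ((a : ℝ) + 3) * Real.logb 2 (n : ℝ) ≤ (4 * a) * (9 / 8 * g) := by
      apply mul_le_mul (by linarith) h0 _ (by linarith)
      exact Real.logb_nonneg (by norm_num) (by linarith)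
    linarith
  · rw [card_somes]
    have h1 : 0 < 386 * (a : ℝ) := by positivity
    rw [div_mul_eq_mul_div, div_le_iff₀ h1]
    have h2 : 0 ≤ (n : ℝ) ^ 2 * (a * g) := by positivity
    have h3 : (n : ℝ) * (49 / 600 * (n * g / 7)) * (386 * a) ≤
        n * (49 / 600 * Fintype.card (Fin (n / 2) × Fin b)) * (386 * a) := by
      apply mul_le_mul_of_nonneg_right _ h1.le
      apply mul_le_mul_of_nonneg_left _ (Nat.cast_nonneg _)
      exact mul_le_mul_of_nonneg_left hT (by norm_num)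
    have e1 : (n : ℝ) ^ 2 * (9 / 2 * a * g) = 9 / 2 * ((n : ℝ) ^ 2 * (a * g)) := by ring
    have e2 : (n : ℝ) * (49 / 600 * (n * g / 7)) * (386 * a) =
        (49 * 386 / 4200) * ((n : ℝ) ^ 2 * (a * g)) := by ring
    rw [e2] at h3
    rw [e1]
    linarith

theorem good_tri {m a k : ℕ} (hm : 1000 ≤ m) (ha : 1 ≤ a) (hk : 4 ≤ k)
    (hl1 : Real.logb 2 (m : ℝ) ≤ 5 / 2 * k)
    (hT : (m : ℝ) * k / 2 ≤ Fintype.card (Fin (Pool.Agent.TH457.Ary.Tri.M m k) × Fin k)) :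
    Good (4 * m ^ 2) (m ^ a) ((univ : Finset (Fin m)).card *
      ((49 / 600) * Fintype.card (Fin (Pool.Agent.TH457.Ary.Tri.M m k) × Fin k)))
      ((m : ℝ) ^ 2 / (245 * a)) := by
  have hm' : (1000 : ℝ) ≤ m := by exact_mod_cast hm
  have ha' : (1 : ℝ) ≤ a := by exact_mod_cast ha
  have hk' : (4 : ℝ) ≤ k := by exact_mod_cast hk
  refine ⟨m ^ (a + 3), 10 * a * k, ?_, ?_, by positivity, ?_⟩
  · have h1 : 1 ≤ m ^ a := Nat.one_le_pow _ _ (by omega)
    have h2 : 4 * (4 * m ^ 2) * (m ^ a + 1) ≤ 4 * (4 * m ^ 2) * (2 * m ^ a) :=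
      Nat.mul_le_mul_left _ (by omega)
    have h3 : 4 * (4 * m ^ 2) * (2 * m ^ a) = 32 * (m ^ 2 * m ^ a) := by ring
    have h4 : m ^ a ≤ m ^ 2 * m ^ a := Nat.le_mul_of_pos_left _ (by positivity)
    have h5 : m ^ (a + 3) = m * (m ^ 2 * m ^ a) := by ring
    have h6 : 1000 * (m ^ 2 * m ^ a) ≤ m * (m ^ 2 * m ^ a) := Nat.mul_le_mul_right _ hm
    rw [h5]
    omega
  · push_cast
    rw [Real.logb_pow]
    push_cast
    have h1 : ((a : ℝ) + 3) * Real.logb 2 (m : ℝ) ≤ (4 * a) * (5 / 2 * k) := by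
      apply mul_le_mul (by linarith) hl1 _ (by linarith)
      exact Real.logb_nonneg (by norm_num) (by linarith)
    linarith
  · rw [card_univ (α := Fin m), Fintype.card_fin]
    have h1 : 0 < 245 * (a : ℝ) := by positivity
    rw [div_mul_eq_mul_div, div_le_iff₀ h1]
    have h2 : 0 ≤ (m : ℝ) ^ 2 * (a * k) := by positivity
    have h3 : (m : ℝ) * (49 / 600 * (m * k / 2)) * (245 * a) ≤ m * (49 / 600 *
        Fintype.card (Fin (Pool.Agent.TH457.Ary.Tri.M m k) × Fin k)) * (245 * a) := by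
      apply mul_le_mul_of_nonneg_right _ h1.le
      apply mul_le_mul_of_nonneg_left _ (Nat.cast_nonneg _)
      exact mul_le_mul_of_nonneg_left hT (by norm_num)
    have e1 : (m : ℝ) ^ 2 * (10 * a * k) = 10 * ((m : ℝ) ^ 2 * (a * k)) := by ring
    have e2 : (m : ℝ) * (49 / 600 * (m * k / 2)) * (245 * a) =
        (49 * 245 / 1200) * ((m : ℝ) ^ 2 * (a * k)) := by ring
    rw [e2] at h3
    rw [e1]
    linarith

theorem good_zt {n a : ℕ} (hn : 100 ≤ n) (ha : 1 ≤ a) :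
    Good n (n ^ a) ((Pool.Agent.Y638.RF.ZT.first n).card * ((49 / 600) * Fintype.card (Fin n)))
      ((n : ℝ) ^ 3 / (37 * a * Real.logb 2 n)) := by
  have hn' : (100 : ℝ) ≤ n := by exact_mod_cast hn
  have ha' : (1 : ℝ) ≤ a := by exact_mod_cast ha
  have hl2 : (6 : ℝ) ≤ Real.logb 2 n := by
    have h11 : ((2 : ℝ)) ^ 6 ≤ n := by linarith
    have h12 := Real.logb_le_logb_of_le (by norm_num : (1 : ℝ) < 2) (by positivity) h11
    rw [Real.logb_pow, Real.logb_self_eq_one (by norm_num)] at h12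
    norm_num at h12
    exact h12
  obtain ⟨l, hl⟩ : ∃ l : ℝ, l = Real.logb 2 (n : ℝ) := ⟨_, rfl⟩
  rw [← hl] at hl2 ⊢
  refine ⟨n ^ (a + 2), 3 * a * l, ?_, ?_, by positivity, ?_⟩
  · have h1 : 1 ≤ n ^ a := Nat.one_le_pow _ _ (by omega)
    have h2 : 4 * n * (n ^ a + 1) ≤ 4 * n * (2 * n ^ a) :=
      Nat.mul_le_mul_left _ (by omega)
    have h3 : 4 * n * (2 * n ^ a) = 8 * (n * n ^ a) := by ring
    have h4 : n ^ a ≤ n * n ^ a := Nat.le_mul_of_pos_left _ (by omega)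
    have h5 : n ^ (a + 2) = n * (n * n ^ a) := by ring
    have h6 : 100 * (n * n ^ a) ≤ n * (n * n ^ a) := Nat.mul_le_mul_right _ hn
    rw [h5]
    omega
  · push_cast
    rw [Real.logb_pow, ← hl]
    push_cast
    nlinarith
  · rw [Pool.Agent.Y638.RF.ZT.card_first, Fintype.card_fin]
    push_cast
    have h1 : 0 < 37 * (a : ℝ) * l := by positivity
    rw [div_mul_eq_mul_div, div_le_iff₀ h1]
    have h2 : 0 ≤ (n : ℝ) ^ 3 * (a * l) := by positivity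
    have e1 : (n : ℝ) ^ 3 * (3 * a * l) = 3 * ((n : ℝ) ^ 3 * (a * l)) := by ring
    have e2 : (n : ℝ) ^ 2 * (49 / 600 * n) * (37 * a * l) =
        (49 * 37 / 600) * ((n : ℝ) ^ 3 * (a * l)) := by ring
    rw [e1, e2]
    linarith

theorem good_dual {k M M' a : ℕ} (hk : 9 ≤ k) (hM : (2 * k + 1).choose (k + 1) + 1 ≤ M)
    (hM2 : M ≤ 16 ^ k) (ha : 1 ≤ a) :
    Good ((2 * k).choose k) (M ^ a) ((lefts M M').card *
      ((49 / 600) * Fintype.card (Pool.Agent.Y638.RF.Dual.Tk k)))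
      ((M : ℝ) * ((2 * k).choose k : ℕ) / (147 * (a * k))) := by
  obtain ⟨h1, h2, h3, h4, h5⟩ := Pool.Agent.Y638.RF.Dual.facts hk hM hM2
  have hk' : (9 : ℝ) ≤ k := by exact_mod_cast hk
  have ha' : (1 : ℝ) ≤ a := by exact_mod_cast ha
  refine ⟨M ^ (a + 2), 12 * (a * k), ?_, ?_, by positivity, ?_⟩
  · have e1 : 1 ≤ M ^ a := Nat.one_le_pow _ _ (by omega)
    have e2 : 4 * (2 * k).choose k * (M ^ a + 1) ≤ 4 * M * (2 * M ^ a) :=
      Nat.mul_le_mul (Nat.mul_le_mul_left _ h1) (by omega)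
    have e3 : 4 * M * (2 * M ^ a) = 8 * (M * M ^ a) := by ring
    have e4 : M ^ a ≤ M * M ^ a := Nat.le_mul_of_pos_left _ (by omega)
    have e5 : M ^ (a + 2) = M * (M * M ^ a) := by ring
    have e6 : 36000 * (M * M ^ a) ≤ M * (M * M ^ a) := Nat.mul_le_mul_right _ h2
    rw [e5]
    omega
  · push_cast
    rw [Real.logb_pow]
    push_cast
    have e1 : ((a : ℝ) + 2) * Real.logb 2 M ≤ (3 * a) * (4 * k) :=
      mul_le_mul (by linarith) h3 h4 (by linarith)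
    linarith
  · rw [card_lefts, Pool.Agent.Y638.RF.Dual.card_Tk]
    have e0 : 0 < 147 * ((a : ℝ) * k) := by positivity
    rw [div_mul_eq_mul_div, div_le_iff₀ e0]
    have e1 : 0 ≤ (M : ℝ) * ((2 * k).choose k : ℕ) * (a * k) := by positivity
    have e2 : (M : ℝ) * ((2 * k).choose k : ℕ) * (12 * (a * k)) =
        12 * ((M : ℝ) * ((2 * k).choose k : ℕ) * (a * k)) := by ring
    have e3 : (M : ℝ) * (49 / 600 * ((2 * k).choose k : ℕ)) * (147 * (a * k)) =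
        (49 * 147 / 600) * ((M : ℝ) * ((2 * k).choose k : ℕ) * (a * k)) := by ring
    rw [e2, e3]
    linarith

end Pool.Agent.Q225.LS
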