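import Mathlib

set_option autoImplicit false

/-! # Machines whose memory is a vector -/

namespace Pool.Agent.Q225.LS

open Finset Matrix

/-- One step: the item `s.1` is read, and the state (a vector with the coordinates `S`) is multiplied
by a matrix which is an arbitrary function of this item. -/
abbrev Step (ι : Type) (D : ι → Type) (S F : Type) := Σ i : ι, D i → Matrix S S F

/-- The product of the matrices of a sequence of steps (the first step is the first in the list). -/
def run {ι : Type} {D : ι → Type} {S F : Type} [Fintype S] [DecidableEq S] [Field F]
    (x : ∀ i, D i) : List (Step ι D S F) → Matrix S S F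
  | [] => 1
  | s :: l => run x l * s.2 (x s.1)

/-- The number of the steps which read an item in `I`. -/
def count {ι : Type} {D : ι → Type} {S F : Type} [DecidableEq ι] (I : Finset ι)
    (l : List (Step ι D S F)) : ℕ := (l.filter (fun s => s.1 ∈ I)).length

/-- A machine whose state is a vector with the coordinates `S` over the field `F`. -/
structure Machine (ι : Type) (D : ι → Type) (S F : Type) where
  /-- the steps -/
  steps : List (Step ι D S F)
  /-- the state at the start -/
  start : S → F
  /-- the linear function of the state which is computed at the end -/
  final : S → F

variable {ι : Type} {D : ι → Type} {S F : Type}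

namespace Machine

/-- The value of the linear function `final` at the last state. -/
def value [Fintype S] [DecidableEq S] [Field F] (C : Machine ι D S F) (x : ∀ i, D i) : F :=
  C.final ⬝ᵥ (run x C.steps *ᵥ C.start)

/-- The number of the steps which read an item in `I`. -/
def reads [DecidableEq ι] (I : Finset ι) (C : Machine ι D S F) : ℕ := count I C.steps

open Classical in
/-- Accept if the value is not zero. -/
noncomputable def nonzero [Fintype S] [DecidableEq S] [Field F] (C : Machine ι D S F)
    (x : ∀ i, D i) : Bool := decide (C.value x ≠ 0)

/-- Accept if the value is positive. -/
noncomputable def positive [Fintype S] [DecidableEq S] (C : Machine ι D S ℝ)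
    (x : ∀ i, D i) : Bool := decide (0 < C.value x)

end Machine

/-- A quantum machine whose state is a vector in `ℂ ^ S`. The matrices may be arbitrary. -/
structure Quantum (ι : Type) (D : ι → Type) (S : Type) where
  /-- the steps -/
  steps : List (Step ι D S ℂ)
  /-- the state at the start -/
  start : S → ℂ
  /-- the accepting basis states -/
  final : Finset S

namespace Quantum

/-- The number of the steps which read an item in `I`. -/
def reads [DecidableEq ι] (I : Finset ι) (C : Quantum ι D S) : ℕ := count I C.steps

/-- The machine accepts if the last state is (in the sense of squares of absolute values) more than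
half in the accepting basis states. -/
noncomputable def eval [Fintype S] [DecidableEq S] (C : Quantum ι D S) (x : ∀ i, D i) : Bool :=
  decide (∑ a, ‖(run x C.steps *ᵥ C.start) a‖ ^ 2 <
    2 * ∑ a ∈ C.final, ‖(run x C.steps *ᵥ C.start) a‖ ^ 2)

end Quantum

/-- The expected value. -/
def mean {Ω : Type} [Fintype Ω] (μ : Ω → ℝ) (a : Ω → ℕ) : ℝ := ∑ ω, μ ω * (a ω : ℝ)

end Pool.Agent.Q225.LS
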