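import Pool.Agent.Q225.LS.Quantum

set_option autoImplicit false

/-! # The lower bounds -/

namespace Pool.Agent.Q225.LS

open Finset
open Pool.Agent.Y638.RF (Asks gen_err)
open Pool.Agent.TH697.Form (IsProb)
open Pool.Agent.TH697.Row (ApproximatesOn)

variable {ι : Type} {D : ι → Type} [DecidableEq ι] {S F : Type}
  {T : Type} [Fintype T] {Ω : Type} [Fintype Ω]

theorem sum_count (I : Finset ι) (l : List (Step ι D S F)) : ∑ i ∈ I, count {i} l = count I l := by
  induction l with
  | nil => simp [count]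
  | cons s l ih =>
    have h1 : ∀ J : Finset ι, count J (s :: l) = (if s.1 ∈ J then 1 else 0) + count J l := by
      intro J
      unfold count
      rw [List.filter_cons]
      by_cases h : s.1 ∈ J
      · simp [h, add_comm]
      · simp [h]
    rw [h1 I]
    have h2 : ∑ i ∈ I, count {i} (s :: l) =
        ∑ i ∈ I, ((if s.1 = i then 1 else 0) + count {i} l) := by
      refine sum_congr rfl fun i _ => ?_
      rw [h1 {i}]
      simp only [Finset.mem_singleton]
    rw [h2, sum_add_distrib, ih, Finset.sum_ite_eq]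

open Classical in
theorem lower (μ : Ω → ℝ) (hμ : IsProb μ) (G : Ω → (∀ i, D i) → Bool)
    (P : (∀ i, D i) → Prop) (f : (∀ i, D i) → Bool) (hF : ApproximatesOn μ G P f)
    (l : Ω → List (Step ι D S F)) (Q K M : ℕ) (hM : 1 ≤ M) (I : Finset ι) (δ : ℝ)
    (hsub : ∀ (Y : Type) [Fintype Y] (i : ι) (y : Y → D i), i ∈ I → Fintype.card Y ≤ K → ∀ ω,
      ∃ 𝒮 : Finset (Y → Bool), 𝒮.card ≤ M ^ ((count {i} (l ω) + 1) * Q) ∧
        ∀ z, (fun v => G ω (Function.update z i (y v))) ∈ 𝒮)
    (h : ∀ i ∈ I, Asks T K δ P f i) :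
    (I.card : ℝ) * ((49 / 600 - δ) * Fintype.card T) ≤
      Real.logb 2 M * Q * (mean μ (fun ω => count I (l ω)) + I.card) := by
  have h6 : (0 : ℝ) < Real.log 2 := Real.log_pos (by norm_num)
  have hlM : 0 ≤ Real.log (M : ℝ) := Real.log_nonneg (by exact_mod_cast hM)
  have h1 : ∀ i ∈ I, (49 / 600 - δ) * Fintype.card T * Real.log 2
      ≤ ∑ ω, μ ω * (Real.log M * Q * ((count {i} (l ω) : ℝ) + 1)) := by
    intro i hi
    obtain ⟨A, r, Qs, R, hA, hQA, hQ, hP, hf⟩ := h i hi
    obtain ⟨y, hy⟩ : ∃ y : {d // d ∈ A} → D i, y = fun v => v.1 := ⟨_, rfl⟩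
    have hK : Fintype.card {d // d ∈ A} ≤ K := by
      rw [Fintype.card_coe]
      exact hA
    choose 𝒮 hS1 hS2 using fun ω => hsub {d // d ∈ A} i y hi hK ω
    refine (gen_err μ hμ G P f hF i y 𝒮 (fun ω z => hS2 ω z) r
      (fun t z => ⟨Qs t z, hQA t z⟩) (fun t z z' hz => Subtype.ext (hQ t z z' hz)) R
      (fun t z => by rw [hy]; exact hP t z) δ (by rw [hy]; exact hf)).trans ?_
    apply sum_le_sum
    intro ω _
    apply mul_le_mul_of_nonneg_left _ (hμ.nonneg ω)
    have hne : 1 ≤ (𝒮 ω).card := card_pos.2 ⟨_, hS2 ω (R (fun _ => false))⟩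
    have h2 : ((𝒮 ω).card : ℝ) ≤ (M : ℝ) ^ ((count {i} (l ω) + 1) * Q) := by
      exact_mod_cast hS1 ω
    have h4 := Real.log_le_log (by exact_mod_cast hne) h2
    rw [Real.log_pow] at h4
    push_cast at h4
    linarith
  have h2 := sum_le_sum h1
  rw [sum_const, nsmul_eq_mul, sum_comm] at h2
  have h3 : ∑ ω, ∑ i ∈ I, μ ω * (Real.log M * Q * ((count {i} (l ω) : ℝ) + 1)) =
      Real.log M * Q * (mean μ (fun ω => count I (l ω)) + I.card) := by
    have e1 : Real.log M * Q * (mean μ (fun ω => count I (l ω)) + I.card) =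
        ∑ ω, μ ω * (Real.log M * Q * ((count I (l ω) : ℝ) + I.card)) := by
      unfold mean
      simp only [mul_add, sum_add_distrib]
      rw [← sum_mul, hμ.sum_one, one_mul, mul_sum]
      congr 1
      refine sum_congr rfl fun ω _ => ?_
      ring
    rw [e1]
    apply sum_congr rfl
    intro ω _
    rw [← mul_sum, ← mul_sum, sum_add_distrib, sum_const, nsmul_eq_mul, mul_one]
    congr 3
    rw [← sum_count]
    push_cast
    rfl
  rw [h3] at h2
  have h7 : Real.logb 2 M * Q * (mean μ (fun ω => count I (l ω)) + I.card) * Real.log 2 =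
      Real.log M * Q * (mean μ (fun ω => count I (l ω)) + I.card) := by
    rw [Real.logb]
    field_simp
  have h5 : (I.card : ℝ) * ((49 / 600 - δ) * Fintype.card T) * Real.log 2 ≤
      Real.logb 2 M * Q * (mean μ (fun ω => count I (l ω)) + I.card) * Real.log 2 := by
    rw [h7]
    linarith
  exact le_of_mul_le_mul_right h5 h6

variable [Fintype S] [DecidableEq S]

theorem count_le (I : Finset ι) {i : ι} (hi : i ∈ I) (l : List (Step ι D S F)) :
    count {i} l ≤ count I l := by
  rw [← sum_count I l]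
  exact single_le_sum (f := fun i => count {i} l) (fun _ _ => Nat.zero_le _) hi

/-- Machines over the real numbers which accept if the value is positive. -/
theorem positive_lower (μ : Ω → ℝ) (hμ : IsProb μ) (C : Ω → Machine ι D S ℝ)
    (P : (∀ i, D i) → Prop) (f : (∀ i, D i) → Bool)
    (hF : ApproximatesOn μ (fun ω => (C ω).positive) P f) (K L M : ℕ) (I : Finset ι)
    (hL : ∀ ω, (C ω).reads I ≤ L) (hM : 4 * K * (L + 1) + 2 ≤ M) (δ : ℝ)
    (h : ∀ i ∈ I, Asks T K δ P f i) :
    (I.card : ℝ) * ((49 / 600 - δ) * Fintype.card T) ≤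
      Real.logb 2 M * (Fintype.card S : ℝ) ^ 2 * (mean μ (fun ω => (C ω).reads I) + I.card) := by
  classical
  have := lower μ hμ (fun ω => (C ω).positive) P f hF (fun ω => (C ω).steps)
    (Fintype.card S ^ 2) K M (by omega) I δ (fun Y _ i y hi hK ω => by
      refine (C ω).sub_positive i y M ?_
      have h1 : (C ω).reads {i} ≤ L := (count_le I hi _).trans (hL ω)
      have h2 : 4 * Fintype.card Y * ((C ω).reads {i} + 1) ≤ 4 * K * (L + 1) :=
        Nat.mul_le_mul (Nat.mul_le_mul_left _ hK) (by omega)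
      omega) h
  push_cast at this
  exact this

/-- Machines over a field which accept if the value is not zero. -/
theorem nonzero_lower [Field F] (μ : Ω → ℝ) (hμ : IsProb μ) (C : Ω → Machine ι D S F)
    (P : (∀ i, D i) → Prop) (f : (∀ i, D i) → Bool)
    (hF : ApproximatesOn μ (fun ω => (C ω).nonzero) P f) (K L M : ℕ) (I : Finset ι)
    (hL : ∀ ω, (C ω).reads I ≤ L) (hM : 4 * K * (L + 1) + 2 ≤ M) (δ : ℝ)
    (h : ∀ i ∈ I, Asks T K δ P f i) :
    (I.card : ℝ) * ((49 / 600 - δ) * Fintype.card T) ≤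
      Real.logb 2 M * (Fintype.card S : ℝ) ^ 2 * (mean μ (fun ω => (C ω).reads I) + I.card) := by
  classical
  have := lower μ hμ (fun ω => (C ω).nonzero) P f hF (fun ω => (C ω).steps)
    (Fintype.card S ^ 2) K M (by omega) I δ (fun Y _ i y hi hK ω => by
      refine (C ω).sub_nonzero i y M ?_
      have h1 : (C ω).reads {i} ≤ L := (count_le I hi _).trans (hL ω)
      have h2 : 4 * Fintype.card Y * ((C ω).reads {i} + 1) ≤ 4 * K * (L + 1) :=
        Nat.mul_le_mul (Nat.mul_le_mul_left _ hK) (by omega)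
      omega) h
  push_cast at this
  exact this

/-- Quantum machines. -/
theorem quantum_lower (μ : Ω → ℝ) (hμ : IsProb μ) (C : Ω → Quantum ι D S)
    (P : (∀ i, D i) → Prop) (f : (∀ i, D i) → Bool)
    (hF : ApproximatesOn μ (fun ω => (C ω).eval) P f) (K L M : ℕ) (I : Finset ι)
    (hL : ∀ ω, (C ω).reads I ≤ L) (hM : 4 * K * (L + 1) + 2 ≤ M) (δ : ℝ)
    (h : ∀ i ∈ I, Asks T K δ P f i) :
    (I.card : ℝ) * ((49 / 600 - δ) * Fintype.card T) ≤
      Real.logb 2 M * (16 * (Fintype.card S : ℝ) ^ 4) *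
        (mean μ (fun ω => (C ω).reads I) + I.card) := by
  have e : (fun ω => (C ω).toMachine.positive) = fun ω => (C ω).eval := by
    funext ω x
    exact (C ω).eval_toMachine x
  have := positive_lower μ hμ (fun ω => (C ω).toMachine) P f (by rw [e]; exact hF) K L M I
    (fun ω => by rw [(C ω).reads_toMachine]; exact hL ω) hM δ h
  simp only [Quantum.reads_toMachine, Fintype.card_prod, Fintype.card_sum] at this
  push_cast at this
  have e2 : (((Fintype.card S : ℝ) + Fintype.card S) * (Fintype.card S + Fintype.card S)) ^ 2 =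
      16 * (Fintype.card S : ℝ) ^ 4 := by ring
  rw [e2] at this
  exact this

theorem mean_nonneg (μ : Ω → ℝ) (hμ : IsProb μ) (a : Ω → ℕ) : 0 ≤ mean μ a := by
  unfold mean
  exact sum_nonneg fun ω _ => mul_nonneg (hμ.nonneg ω) (Nat.cast_nonneg _)

end Pool.Agent.Q225.LS
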