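import Pool.Agent.Q225.LS.Core

set_option autoImplicit false

/-! # Quantum machines as real machines -/

namespace Pool.Agent.Q225.LS

open Finset Matrix Kronecker

variable {ι : Type} {D : ι → Type} {S : Type} [Fintype S] [DecidableEq S]

/-- real and imaginary parts -/
def rvec (ψ : S → ℂ) : S ⊕ S → ℝ := Sum.elim (fun a => (ψ a).re) (fun a => (ψ a).im)

/-- the real form of a complex matrix -/
def rmat (A : Matrix S S ℂ) : Matrix (S ⊕ S) (S ⊕ S) ℝ :=
  Matrix.fromBlocks (A.map Complex.re) (-(A.map Complex.im)) (A.map Complex.im) (A.map Complex.re)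

theorem rmat_one : rmat (1 : Matrix S S ℂ) = 1 := by
  unfold rmat
  ext a b
  rcases a with a | a <;> rcases b with b | b <;>
    simp [Matrix.one_apply] <;> split_ifs <;> simp

theorem rmat_mul (A B : Matrix S S ℂ) : rmat (A * B) = rmat A * rmat B := by
  unfold rmat
  rw [Matrix.fromBlocks_multiply]
  congr 1
  · ext a b
    simp [Matrix.mul_apply, Complex.mul_re, sum_sub_distrib]
    ring
  · ext a b
    simp [Matrix.mul_apply, Complex.mul_im, sum_add_distrib]
    ring
  · ext a b
    simp [Matrix.mul_apply, Complex.mul_im, sum_add_distrib]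
    ring
  · ext a b
    simp [Matrix.mul_apply, Complex.mul_re, sum_sub_distrib]
    ring

theorem rmat_mulVec (A : Matrix S S ℂ) (ψ : S → ℂ) : rmat A *ᵥ rvec ψ = rvec (A *ᵥ ψ) := by
  unfold rmat rvec
  funext a
  rcases a with a | a
  · simp [Matrix.mulVec, dotProduct, Complex.mul_re, sum_sub_distrib]
    ring
  · simp [Matrix.mulVec, dotProduct, Complex.mul_im, sum_add_distrib]
    ring

/-- The real machine which simulates the quantum machine. -/
noncomputable def Quantum.toMachine (C : Quantum ι D S) :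
    Machine ι D ((S ⊕ S) × (S ⊕ S)) ℝ where
  steps := C.steps.map (fun s => ⟨s.1, fun d => rmat (s.2 d) ⊗ₖ rmat (s.2 d)⟩)
  start := fun p => rvec C.start p.1 * rvec C.start p.2
  final := fun p => if p.1 = p.2 then
    (if Sum.elim id id p.1 ∈ C.final then 1 else -1) else 0

theorem run_map (x : ∀ i, D i) : ∀ l : List (Step ι D S ℂ),
    run x (l.map (fun s => (⟨s.1, fun d => rmat (s.2 d) ⊗ₖ rmat (s.2 d)⟩ :
      Step ι D ((S ⊕ S) × (S ⊕ S)) ℝ))) = rmat (run x l) ⊗ₖ rmat (run x l)
  | [] => by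
    simp only [List.map_nil, run, rmat_one]
    rw [Matrix.one_kronecker_one]
  | s :: l => by
    simp only [List.map_cons, run]
    rw [run_map x l, rmat_mul, Matrix.mul_kronecker_mul]

theorem kron_mulVec {T : Type} [Fintype T] [DecidableEq T] (A : Matrix T T ℝ) (u : T → ℝ) :
    (A ⊗ₖ A) *ᵥ (fun p : T × T => u p.1 * u p.2) = fun p => (A *ᵥ u) p.1 * (A *ᵥ u) p.2 := by
  funext p
  simp only [Matrix.mulVec, dotProduct, Matrix.kroneckerMap_apply]
  rw [Fintype.sum_prod_type, sum_mul_sum]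
  refine sum_congr rfl fun a _ => sum_congr rfl fun b _ => ?_
  ring

theorem Quantum.value_toMachine (C : Quantum ι D S) (x : ∀ i, D i) :
    C.toMachine.value x = 2 * ∑ a ∈ C.final, ‖(run x C.steps *ᵥ C.start) a‖ ^ 2 -
      ∑ a, ‖(run x C.steps *ᵥ C.start) a‖ ^ 2 := by
  unfold Machine.value Quantum.toMachine
  simp only
  rw [run_map, kron_mulVec, rmat_mulVec]
  obtain ⟨ψ, hψ⟩ : ∃ ψ, ψ = run x C.steps *ᵥ C.start := ⟨_, rfl⟩
  rw [← hψ]
  have h1 : ∀ a, ‖ψ a‖ ^ 2 = (ψ a).re ^ 2 + (ψ a).im ^ 2 := by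
    intro a
    rw [Complex.sq_norm, Complex.normSq_apply]
    ring
  have h2 : (fun p : (S ⊕ S) × (S ⊕ S) => if p.1 = p.2 then
      (if Sum.elim id id p.1 ∈ C.final then (1 : ℝ) else -1) else 0) ⬝ᵥ
      (fun p => rvec ψ p.1 * rvec ψ p.2) =
      ∑ a, (if a ∈ C.final then (1 : ℝ) else -1) * ((ψ a).re ^ 2 + (ψ a).im ^ 2) := by
    simp only [dotProduct]
    rw [Fintype.sum_prod_type]
    have e : ∀ a : S ⊕ S, ∑ b : S ⊕ S, (if a = b then
        (if Sum.elim id id a ∈ C.final then (1 : ℝ) else -1) else 0) * (rvec ψ a * rvec ψ b) =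
        (if Sum.elim id id a ∈ C.final then (1 : ℝ) else -1) * (rvec ψ a * rvec ψ a) := by
      intro a
      simp only [ite_mul, zero_mul]
      rw [Finset.sum_ite_eq univ a]
      simp
    simp only [e]
    rw [Fintype.sum_sum_type, ← sum_add_distrib]
    refine sum_congr rfl fun a _ => ?_
    simp only [rvec, Sum.elim_inl, Sum.elim_inr, id]
    ring
  rw [h2]
  have h3 : ∀ a, (if a ∈ C.final then (1 : ℝ) else -1) * ((ψ a).re ^ 2 + (ψ a).im ^ 2) =
      2 * (if a ∈ C.final then ‖ψ a‖ ^ 2 else 0) - ‖ψ a‖ ^ 2 := by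
    intro a
    rw [h1]
    split_ifs <;> ring
  simp only [h3]
  rw [sum_sub_distrib, ← mul_sum, Finset.sum_ite_mem, univ_inter]

theorem Quantum.eval_toMachine (C : Quantum ι D S) (x : ∀ i, D i) :
    C.toMachine.positive x = C.eval x := by
  unfold Machine.positive Quantum.eval
  rw [C.value_toMachine x]
  simp only [sub_pos]

theorem Quantum.reads_toMachine [DecidableEq ι] (C : Quantum ι D S) (I : Finset ι) :
    C.toMachine.reads I = C.reads I := by
  unfold Machine.reads Quantum.reads Quantum.toMachine count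
  simp only
  rw [List.filter_map, List.length_map]
  rfl

end Pool.Agent.Q225.LS
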