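import Pool.Agent.Q225.LS.Good

set_option autoImplicit false

/-! # Machines with three coordinates -/

namespace Pool.Agent.Q225.LS

open Finset Matrix
open Pool.Agent.Q225.SP (somes card_somes)

variable {n : ℕ} {D : Option (Fin n) → Type} {κ : Type}

/-- the steps for sums of products -/
def sumSteps (i : κ → Fin n) (α : ∀ p, D (some (i p)) → ℝ) (β : κ → D none → ℝ) :
    List κ → List (Step (Option (Fin n)) D (Fin 3) ℝ)
  | [] => []
  | p :: L => ⟨some (i p), fun d => !![1, 0, 0; α p d, 0, 0; 0, 0, 1]⟩ ::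
      ⟨none, fun e => !![1, 0, 0; 0, 0, 0; 0, β p e, 1]⟩ :: sumSteps i α β L

theorem run_sumSteps (i : κ → Fin n) (α : ∀ p, D (some (i p)) → ℝ) (β : κ → D none → ℝ)
    (x : ∀ i, D i) : ∀ (L : List κ) (c : ℝ), run x (sumSteps i α β L) *ᵥ ![1, 0, c] =
      ![1, 0, c + (L.map fun p => α p (x (some (i p))) * β p (x none)).sum]
  | [], c => by simp [sumSteps, run]
  | p :: L, c => by
    simp only [sumSteps, run]
    rw [← Matrix.mulVec_mulVec, ← Matrix.mulVec_mulVec]
    have h1 : (!![1, 0, 0; α p (x (some (i p))), 0, 0; 0, 0, 1] : Matrix (Fin 3) (Fin 3) ℝ) *ᵥ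
        ![1, 0, c] = ![1, α p (x (some (i p))), c] := by
      funext a
      fin_cases a <;> simp [Matrix.mulVec, dotProduct, Fin.sum_univ_three]
    have h2 : (!![1, 0, 0; 0, 0, 0; 0, β p (x none), 1] : Matrix (Fin 3) (Fin 3) ℝ) *ᵥ
        ![1, α p (x (some (i p))), c] =
        ![1, 0, c + α p (x (some (i p))) * β p (x none)] := by
      funext a
      fin_cases a <;> simp [Matrix.mulVec, dotProduct, Fin.sum_univ_three]
      ring
    rw [h1, h2, run_sumSteps i α β x L]
    simp only [List.map_cons, List.sum_cons, add_assoc]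

theorem count_sumSteps (i : κ → Fin n) (α : ∀ p, D (some (i p)) → ℝ) (β : κ → D none → ℝ) :
    ∀ L : List κ, count (somes n) (sumSteps i α β L) = L.length
  | [] => by simp [sumSteps, count]
  | p :: L => by
    have ih := count_sumSteps i α β L
    unfold count at ih ⊢
    simp only [sumSteps]
    have e1 : (some (i p)) ∈ somes n := by
      rw [somes, mem_map]
      exact ⟨i p, mem_univ _, rfl⟩
    have e2 : (none : Option (Fin n)) ∉ somes n := by
      rw [somes, mem_map]
      rintro ⟨i, -, h⟩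
      exact absurd h (by simp)
    rw [List.filter_cons_of_pos (by simpa using e1), List.filter_cons_of_neg (by simpa using e2),
      List.length_cons, ih, List.length_cons]

theorem exists_sum_machine [Fintype κ] (i : κ → Fin n) (α : ∀ p, D (some (i p)) → ℝ)
    (β : κ → D none → ℝ) (c : ℝ) : ∃ C : Machine (Option (Fin n)) D (Fin 3) ℝ,
      C.reads (somes n) = Fintype.card κ ∧
      ∀ x, C.value x = c + ∑ p, α p (x (some (i p))) * β p (x none) := by
  refine ⟨⟨sumSteps i α β univ.toList, ![1, 0, c], ![0, 0, 1]⟩, ?_, fun x => ?_⟩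
  · unfold Machine.reads
    rw [count_sumSteps, Finset.length_toList, card_univ]
  · unfold Machine.value
    simp only
    rw [run_sumSteps]
    simp [dotProduct, Fin.sum_univ_three]

open Pool.Agent.TH697.Form.OuMv (ouMv) in
theorem ouMv_upper (n : ℕ) : ∃ C : Machine (Option (Fin n)) (Pool.Agent.TH697.Form.OuMv.Item n n)
    (Fin 3) ℝ, C.reads (somes n) = n ^ 3 ∧ ∀ x, C.positive x = ouMv n n x := by
  classical
  obtain ⟨C, h1, h2⟩ := exists_sum_machine (D := Pool.Agent.TH697.Form.OuMv.Item n n)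
    (fun p : Fin n × Fin n × Fin n => p.1)
    (fun p d => if d.1 p.2.1 = true ∧ d.2 p.2.2 = true then 1 else 0)
    (fun p M => if M p.2.1 p.2.2 = true then 1 else 0) 0
  refine ⟨C, ?_, fun x => ?_⟩
  · rw [h1]
    simp only [Fintype.card_prod, Fintype.card_fin]
    ring
  · unfold Machine.positive ouMv
    rw [h2, zero_add]
    apply decide_eq_decide.2
    have hnn : ∀ p : Fin n × Fin n × Fin n, (0 : ℝ) ≤
        (if (x (some p.1)).1 p.2.1 = true ∧ (x (some p.1)).2 p.2.2 = true then 1 else 0) *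
          (if x none p.2.1 p.2.2 = true then 1 else 0) := by
      intro p
      split_ifs <;> norm_num
    constructor
    · intro h
      obtain ⟨p, -, hp⟩ := (sum_pos_iff_of_nonneg (fun p _ => hnn p)).1 h
      by_cases h3 : (x (some p.1)).1 p.2.1 = true ∧ (x (some p.1)).2 p.2.2 = true
      · by_cases h4 : x none p.2.1 p.2.2 = true
        · exact ⟨p.1, p.2.1, p.2.2, h3.1, h4, h3.2⟩
        · rw [if_neg h4, mul_zero] at hp
          exact absurd hp (lt_irrefl _)
      · rw [if_neg h3, zero_mul] at hp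
        exact absurd hp (lt_irrefl _)
    · rintro ⟨i, j, k, h3, h4, h5⟩
      rw [sum_pos_iff_of_nonneg (fun p _ => hnn p)]
      exact ⟨(i, j, k), mem_univ _, by simp only; rw [if_pos ⟨h3, h5⟩, if_pos h4]; norm_num⟩

open Pool.Agent.TH697.Form.MinPlus (Item shortcut) in
theorem minPlus_upper (n : ℕ) : ∃ C : Machine (Option (Fin n)) (Item n)
    (Fin 3) ℝ, C.reads (somes n) = n ^ 3 ∧ ∀ x, C.positive x = shortcut n x := by
  classical
  obtain ⟨b, hb⟩ : ∃ b : ℝ, b = (n : ℝ) ^ 3 + 1 := ⟨_, rfl⟩
  have hn3 : (0 : ℝ) ≤ (n : ℝ) ^ 3 := by positivity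
  have hb1 : 1 ≤ b := by linarith
  have hb0 : 0 < b := by linarith
  obtain ⟨C, h1, h2⟩ := exists_sum_machine (D := Item n)
    (fun p : Fin n × Fin n × Fin n => p.1)
    (fun p d => b ^ (d.2 p.2.2) / b ^ (d.1 p.2.1))
    (fun p B => 1 / b ^ (B p.2.1 p.2.2)) (-(n : ℝ) ^ 3)
  refine ⟨C, ?_, fun x => ?_⟩
  · rw [h1]
    simp only [Fintype.card_prod, Fintype.card_fin]
    ring
  · unfold Machine.positive shortcut
    rw [h2]
    apply decide_eq_decide.2
    obtain ⟨g, hg⟩ : ∃ g : Fin n × Fin n × Fin n → ℝ, ∀ p, g p =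
        b ^ ((x (some p.1)).2 p.2.2) / b ^ ((x (some p.1)).1 p.2.1) *
          (1 / b ^ (x none p.2.1 p.2.2)) := ⟨_, fun _ => rfl⟩
    simp only [← hg]
    have hg' : ∀ p, g p = b ^ ((x (some p.1)).2 p.2.2) /
        b ^ ((x (some p.1)).1 p.2.1 + x none p.2.1 p.2.2) := by
      intro p
      rw [hg, pow_add]
      field_simp
    have hnn : ∀ p, 0 ≤ g p := fun p => by rw [hg']; positivity
    constructor
    · intro h
      by_contra hcon
      push Not at hcon
      have h3 : ∀ p, g p ≤ 1 := by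
        intro p
        rw [hg', div_le_one (by positivity)]
        exact pow_le_pow_right₀ hb1 (hcon p.1 p.2.1 p.2.2)
      have h4 : ∑ p, g p ≤ (n : ℝ) ^ 3 := by
        calc ∑ p, g p ≤ ∑ _p : Fin n × Fin n × Fin n, (1 : ℝ) := sum_le_sum fun p _ => h3 p
          _ = (n : ℝ) ^ 3 := by
            simp only [sum_const, card_univ, Fintype.card_prod, Fintype.card_fin, nsmul_eq_mul]
            push_cast
            ring
      linarith
    · rintro ⟨i, k, j, h3⟩
      have h4 : b ≤ g (i, k, j) := by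
        rw [hg', le_div_iff₀ (by positivity)]
        simp only
        calc b * b ^ ((x (some i)).1 k + x none k j)
            = b ^ ((x (some i)).1 k + x none k j + 1) := by rw [pow_succ]; ring
          _ ≤ _ := pow_le_pow_right₀ hb1 h3
      have h5 : g (i, k, j) ≤ ∑ p, g p := single_le_sum (fun p _ => hnn p) (mem_univ _)
      linarith

end Pool.Agent.Q225.LS
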